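import Pool.Agent.W172.MK.Stm

set_option autoImplicit false

/-!
Orthogonality of the symbols, all cases, and row and column sums.
-/

open MeasureTheory ProbabilityTheory Filter Topology

namespace Pool.Agent.W358.MK

open Pool.Agent.W172.MK

theorem cs_not (χ : Bool) : cs (!χ) = - cs χ := by
  cases χ <;> simp [cs]

theorem nh_symm (hD : P_DDL) {n M : ℕ} (eps : Fin (M + 1) → V n → ℝ) (y z : ℕ → Fin (M + 1))
    (t : ℕ) (χ : Bool) (b : V n) : Nh eps y z t χ b = Nh eps z y t (!χ) b := by
  unfold Nh
  rw [(hD n M eps).1 y z t, cs_not]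
  ring

theorem avg (hD : P_DDL) (hR : P_RES) (hL : P_LAMAVG) {n M : ℕ} (eps : Fin (M + 1) → V n → ℝ)
    (hG : Good eps) (y : ℕ → Fin (M + 1)) (t : ℕ) (κ σ : ℝ) :
    ∫ z, DD eps y z t 0 * κ * (1 + σ * eps (z t) 0) ∂(muSeq M) = 0 := by
  obtain ⟨-, hloc, hmeas, hbdd⟩ := hD n M eps
  have hM1 : ((M : ℝ) + 1) ≠ 0 := by positivity
  have hDm : ∀ t, Measurable (fun z : ℕ → Fin (M + 1) => DD eps y z t 0) := fun t =>
    (hmeas t 0).comp (measurable_const.prodMk measurable_id)
  have hem : ∀ t, Measurable (fun z : ℕ → Fin (M + 1) => eps (z t) 0) := fun t =>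
    (measurable_of_finite (fun c : Fin (M + 1) => eps c 0)).comp (measurable_pi_apply t)
  have he1 : ∀ c, |eps c 0| ≤ 1 := by
    intro c
    rcases hG.sq c 0 with h | h <;> rw [h] <;> norm_num
  cases t with
  | zero =>
    have : ∀ z : ℕ → Fin (M + 1), DD eps y z 0 0 * κ * (1 + σ * eps (z 0) 0) = 0 := by
      intro z
      have h0 : DD eps y z 0 0 = 0 := by
        show D0 (0 : V n) = 0
        simp [D0]
      rw [h0]; ring
    simp only [this, integral_zero]
  | succ u =>
    obtain ⟨C, hC⟩ := hbdd (u + 1)
    rw [hR M (fun z => DD eps y z (u + 1) 0 * κ * (1 + σ * eps (z (u + 1)) 0))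
      (((hDm (u + 1)).mul_const κ).mul (((hem (u + 1)).const_mul σ).const_add 1))
      ⟨C * |κ| * (1 + |σ|), fun z => by
        rw [abs_mul, abs_mul]
        have h1 : |1 + σ * eps (z (u + 1)) 0| ≤ 1 + |σ| := by
          refine (abs_add_le _ _).trans ?_
          rw [abs_one, abs_mul]
          have := mul_le_mul_of_nonneg_left (he1 (z (u + 1))) (abs_nonneg σ)
          linarith
        have hC0 : 0 ≤ C := (abs_nonneg _).trans (hC y z 0)
        exact mul_le_mul (mul_le_mul_of_nonneg_right (hC y z 0) (abs_nonneg κ)) h1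
          (abs_nonneg _) (by positivity)⟩ (u + 1)]
    have e1 : ∀ z : ℕ → Fin (M + 1), (∑ c, DD eps y (Function.update z (u + 1) c) (u + 1) 0 * κ *
        (1 + σ * eps (Function.update z (u + 1) c (u + 1)) 0)) / ((M : ℝ) + 1) =
        DD eps y z (u + 1) 0 * κ := by
      intro z
      have h1 : ∀ c, DD eps y (Function.update z (u + 1) c) (u + 1) = DD eps y z (u + 1) := by
        intro c
        refine hloc y _ _ (u + 1) fun i hi => ?_
        rw [Function.update_of_ne (by omega)]
      have h2 : ∀ c, DD eps y (Function.update z (u + 1) c) (u + 1) 0 * κ *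
          (1 + σ * eps (Function.update z (u + 1) c (u + 1)) 0) =
          DD eps y z (u + 1) 0 * κ + (DD eps y z (u + 1) 0 * κ * σ) * eps c 0 := by
        intro c
        rw [h1, Function.update_self]; ring
      simp only [h2]
      have h3 : ∑ c, (DD eps y z (u + 1) 0 * κ * σ) * eps c 0 = 0 := by
        rw [← Finset.mul_sum, hG.mean 0, mul_zero]
      rw [Finset.sum_add_distrib, h3, add_zero,
        Finset.sum_const, Finset.card_univ, Fintype.card_fin, nsmul_eq_mul]
      push_cast
      field_simp
    simp only [e1]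
    rw [hR M (fun z => DD eps y z (u + 1) 0 * κ) ((hDm (u + 1)).mul_const κ)
      ⟨C * |κ|, fun z => by
        rw [abs_mul]
        exact mul_le_mul_of_nonneg_right (hC y z 0) (abs_nonneg κ)⟩ u]
    have e2 : ∀ z : ℕ → Fin (M + 1), (∑ c, DD eps y (Function.update z u c) (u + 1) 0 * κ) /
        ((M : ℝ) + 1) = 0 := by
      intro z
      have h1 : ∀ c, DD eps y (Function.update z u c) (u + 1) 0 =
          Lam (fun b' => eps (y u) b' * eps c b') (DD eps y z u) 0 := by
        intro c
        show Lam (fun b => eps (y u) b * eps (Function.update z u c u) b)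
          (DD eps y (Function.update z u c) u) 0 = _
        rw [Function.update_self, hloc y (Function.update z u c) z u fun i hi => by
          rw [Function.update_of_ne (by omega)]]
      simp only [h1]
      rw [← Finset.sum_mul, (hL n M eps hG (y u) (DD eps y z u) 0).1, zero_mul, zero_div]
    simp only [e2, integral_zero]

theorem nhzp : P_DDL → P_RES → P_LAMAVG → P_NHZ → P_NHZ' := by
  intro hD hR hL hN n M eps hG
  refine ⟨fun y y' t s χ b => ?_, fun y t => ?_, fun y t => ?_⟩
  · rcases le_total s t with h | h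
    · exact hN n M eps hG y y' t s χ b h
    · have h1 : ∀ z, Nh eps y z t χ b * Nh eps z y' s χ b =
          Nh eps y' z s (!χ) b * Nh eps z y t (!χ) b := by
        intro z
        rw [nh_symm hD eps y z t χ b, nh_symm hD eps z y' s χ b, mul_comm]
      simp only [h1]
      exact hN n M eps hG y' y s t (!χ) b h
  · have h1 : ∀ z, Nh eps y z t true 0 =
        DD eps y z t 0 * (-(1 + eps (y t) 0)) * (1 + (-1) * eps (z t) 0) := by
      intro z
      unfold Nh cs
      simp only [if_true]
      ring
    simp only [h1]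
    exact avg hD hR hL eps hG y t _ _
  · have h1 : ∀ z, Nh eps z y t true 0 =
        DD eps y z t 0 * (-(1 - eps (y t) 0)) * (1 + 1 * eps (z t) 0) := by
      intro z
      unfold Nh cs
      rw [(hD n M eps).1 z y t]
      simp only [if_true]
      ring
    simp only [h1]
    exact avg hD hR hL eps hG y t _ _

end Pool.Agent.W358.MK
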